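import Pool.Agent.KS6_60.TZ.Seq

/-!
# Return times of the Toeplitz systems in base `2 M + 2`
-/

set_option autoImplicit false

namespace KS60.TZ

open Finset MeasureTheory Filter Topology Pool.Agent.R656.Toep
open scoped symmDiff

/-- the constant of partial rigidity -/
noncomputable def del (M : ℕ) : ℝ := ((M : ℝ) - 2) / (M + 2)

theorem del_nonneg {M : ℕ} (hM : 2 ≤ M) : 0 ≤ del M := by
  have : (2 : ℝ) ≤ M := by exact_mod_cast hM
  unfold del
  apply div_nonneg <;> linarith

theorem del_le (M : ℕ) : del M ≤ 1 := by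
  unfold del
  rw [div_le_one (by positivity)]
  linarith

theorem del_mul (M : ℕ) : del M * (M + 2) = M - 2 := by
  unfold del
  field_simp

/-- the combinatorial inequality in one block -/
theorem block_le {M : ℕ} (hM : 2 ≤ M) (K : ℕ) (P : ℤ → Prop) [DecidablePred P]
    (hPt : ∀ I I', U M K I = U M K I' → (P I ↔ P I')) (J : ℤ) :
    ∑ b ∈ range (L M), (del M * (if P (L M * J + b) then (1 : ℝ) else 0) -
      (if P (L M * J + b) ∧ P (L M * J + b + 1) then (1 : ℝ) else 0)) ≤ 0 := by
  have hLM : L M = 2 * M + 2 := rfl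
  have hLc := L_cast M
  by_cases hall : ∀ I, P I
  · simp only [hall, and_self, if_true, mul_one]
    apply sum_nonpos
    intro _ _
    linarith [del_le M]
  by_cases hex : ∃ I, P I
  swap
  · push Not at hex
    simp [hex]
  obtain ⟨I0, hI0⟩ := hex
  push Not at hall
  obtain ⟨I1, hI1⟩ := hall
  have hv : ∀ I, P I ↔ U M K I = U M K I0 := by
    intro I
    constructor
    · intro h
      by_contra hne
      apply hI1
      have hne1 : U M K I0 ≠ U M K I1 := fun h2 => hI1 ((hPt _ _ h2).1 hI0)
      have : U M K I1 = U M K I := by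
        rcases U_sgn M K I with h1 | h1 <;> rcases U_sgn M K I0 with h2 | h2 <;>
          rcases U_sgn M K I1 with h3 | h3 <;> rw [h1, h2] at hne <;> rw [h2, h3] at hne1 <;>
            rw [h1, h3] <;> simp_all
      exact (hPt _ _ this).2 h
    · intro h
      exact (hPt _ _ h).2 hI0
  set V := (T M)^[K + 2] (U M (K + 1)) J with hV
  have hVs : V = 1 ∨ V = -1 := iter_sgn (U_sgn M (K + 1)) (K + 2) J
  have hint : ∀ b : ℕ, 1 ≤ b → b + 2 ≤ L M → U M K (L M * J + b) = ep M b * V := by
    intro b h1 h2
    exact U_int M K J b (by omega) (by omega)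
  rw [sum_sub_distrib, sub_nonpos, ← mul_sum]
  -- the two sets
  obtain ⟨A, B, hA, hB, hBL, hWA, hQB⟩ : ∃ A B : Finset ℕ, A.card ≤ M + 2 ∧ M ≤ B.card + 2 ∧
      B ⊆ range (L M) ∧ (∀ b ∈ range (L M), P (L M * J + b) → b ∈ A) ∧
      ∀ b ∈ B, P (L M * J + b) ∧ P (L M * J + b + 1) := by
    by_cases hs : V = U M K I0
    · refine ⟨insert 0 (insert (L M - 1) (insert (M + 1) (Ico 1 M))), Ico 1 (M - 1), ?_, ?_, ?_,
        ?_, ?_⟩
      · refine (card_insert_le _ _).trans ?_
        have h2 := card_insert_le (L M - 1) (insert (M + 1) (Ico 1 M))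
        have h3 := card_insert_le (M + 1) (Ico 1 M)
        rw [Nat.card_Ico] at h3
        omega
      · rw [Nat.card_Ico]; omega
      · intro b hb
        rw [mem_Ico] at hb
        rw [mem_range]; omega
      · intro b hb hPb
        rw [mem_range] at hb
        rw [mem_insert, mem_insert, mem_insert, mem_Ico]
        by_contra hcon
        push Not at hcon
        have h1 := hint b (by omega) (by omega)
        rw [hv, h1, ep_neg (by omega), ← hs] at hPb
        rcases hVs with h | h <;> rw [h] at hPb <;> norm_num at hPb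
      · intro b hb
        rw [mem_Ico] at hb
        rw [hv, hv, hint b (by omega) (by omega)]
        have h1 := hint (b + 1) (by omega) (by omega)
        push_cast at h1
        rw [← add_assoc] at h1
        rw [h1, ep_pos (by omega), ep_pos (by omega), one_mul]
        exact ⟨hs, hs⟩
    · have hs' : -V = U M K I0 := by
        rcases hVs with h | h
        · rcases U_sgn M K I0 with h2 | h2
          · exact absurd (h.trans h2.symm) hs
          · rw [h, h2]
        · rcases U_sgn M K I0 with h2 | h2
          · rw [h, h2]; norm_num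
          · exact absurd (h.trans h2.symm) hs
      refine ⟨insert 0 (insert (L M - 1) (insert M (Ico (M + 2) (2 * M + 1)))),
        Ico (M + 2) (2 * M), ?_, ?_, ?_, ?_, ?_⟩
      · refine (card_insert_le _ _).trans ?_
        have h2 := card_insert_le (L M - 1) (insert M (Ico (M + 2) (2 * M + 1)))
        have h3 := card_insert_le M (Ico (M + 2) (2 * M + 1))
        rw [Nat.card_Ico] at h3
        omega
      · rw [Nat.card_Ico]; omega
      · intro b hb
        rw [mem_Ico] at hb
        rw [mem_range]; omega
      · intro b hb hPb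
        rw [mem_range] at hb
        rw [mem_insert, mem_insert, mem_insert, mem_Ico]
        by_contra hcon
        push Not at hcon
        have h1 := hint b (by omega) (by omega)
        rw [hv, h1, ep_pos (by omega), ← hs'] at hPb
        rcases hVs with h | h <;> rw [h] at hPb <;> norm_num at hPb
      · intro b hb
        rw [mem_Ico] at hb
        rw [hv, hv, hint b (by omega) (by omega)]
        have h1 := hint (b + 1) (by omega) (by omega)
        push_cast at h1
        rw [← add_assoc] at h1
        rw [h1, ep_neg (by omega), ep_neg (by omega), neg_one_mul]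
        exact ⟨hs', hs'⟩
  have hW : ∑ b ∈ range (L M), (if P (L M * J + b) then (1 : ℝ) else 0) ≤ M + 2 := by
    rw [sum_boole]
    have : ((range (L M)).filter fun b : ℕ => P (L M * J + b)) ⊆ A := by
      intro b hb
      rw [mem_filter] at hb
      exact hWA b hb.1 hb.2
    have := (card_le_card this).trans hA
    exact_mod_cast this
  have hQ : (M : ℝ) - 2 ≤
      ∑ b ∈ range (L M), (if P (L M * J + b) ∧ P (L M * J + b + 1) then (1 : ℝ) else 0) := by
    rw [sum_boole]
    have : B ⊆ (range (L M)).filter fun b : ℕ => P (L M * J + b) ∧ P (L M * J + b + 1) := by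
      intro b hb
      rw [mem_filter]
      exact ⟨hBL hb, hQB b hb⟩
    have h2 := card_le_card this
    have h3 : M ≤ ((range (L M)).filter fun b : ℕ =>
        P (L M * J + b) ∧ P (L M * J + b + 1)).card + 2 := by omega
    have h4 : (M : ℝ) ≤ (((range (L M)).filter fun b : ℕ =>
        P (L M * J + b) ∧ P (L M * J + b + 1)).card : ℝ) + 2 := by exact_mod_cast h3
    linarith
  calc del M * ∑ b ∈ range (L M), (if P (L M * J + b) then (1 : ℝ) else 0)
      ≤ del M * (M + 2) := mul_le_mul_of_nonneg_left hW (del_nonneg hM)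
    _ = M - 2 := del_mul M
    _ ≤ _ := hQ

open Classical in
theorem ret_DP {M : ℕ} (hM : 2 ≤ M) {C : Set (ℤ → Bool)} {R : ℕ} (hC : Loc C R) (K : ℕ) :
    DP (fun j => del M * ic C (fun n => x M (n + j)) -
      ic C (fun n => x M (n + j)) * ic C (fun n => x M (n + j + q M K))) (2 * R / q M K) := by
  have hd0 := del_nonneg hM
  have hd1 := del_le M
  have hq0 := q_pos M K
  have hqr : (0 : ℝ) < q M K := by exact_mod_cast hq0
  have ic01 : ∀ y, ic C y = 0 ∨ ic C y = 1 := by
    intro y; unfold ic; split_ifs <;> simp
  apply DP.of_block (by positivity) hq0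
  · intro n
    rcases ic01 (fun m => x M (m + n)) with h1 | h1 <;>
      rcases ic01 (fun m => x M (m + n + q M K)) with h2 | h2 <;> rw [h1, h2] <;>
      rw [abs_le] <;> constructor <;> linarith
  · have e : (q M K : ℝ) * (2 * R / q M K) = 2 * R := by field_simp
    rw [e]
    set c : ℕ → ℝ := fun r => if R ≤ r ∧ r + R < q M K then 0 else 1 with hc
    have hcs : ∑ r ∈ range (q M K), c r ≤ 2 * R := by
      have : ∀ r, c r = if ¬ (R ≤ r ∧ r + R < q M K) then (1 : ℝ) else 0 := by
        intro r; simp only [hc]; split_ifs <;> simp_all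
      simp_rw [this]
      rw [sum_boole]
      have hsub : (range (q M K)).filter (fun r => ¬ (R ≤ r ∧ r + R < q M K)) ⊆
          range R ∪ Ico (q M K - R) (q M K) := by
        intro r hr
        rw [mem_filter, mem_range] at hr
        rw [mem_union, mem_range, mem_Ico]
        omega
      have h1 := card_le_card hsub
      have h2 := card_union_le (range R) (Ico (q M K - R) (q M K))
      rw [card_range, Nat.card_Ico] at h2
      have h3 : ((range (q M K)).filter (fun r => ¬ (R ≤ r ∧ r + R < q M K))).card ≤ 2 * R := by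
        omega
      exact_mod_cast h3
    refine DP.weaken (DP.sum (range (q M K)) (c := c) ?_) hcs
    intro r hr
    rw [mem_range] at hr
    by_cases hin : R ≤ r ∧ r + R < q M K
    · simp only [hc, hin, and_self, if_true]
      -- inner residue
      set P : ℤ → Prop := fun I => (fun n => x M (n + (q M K * I + r))) ∈ C with hP
      have hPt : ∀ I I', U M K I = U M K I' → (P I ↔ P I') := by
        intro I I' hU
        apply hC
        intro i hi1 hi2
        have e1 : ∀ J : ℤ, i + ((q M K : ℤ) * J + r) = q M K * J + (r + i) := by intro J; ring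
        rw [e1, e1]
        apply x_block M K _ _ hU
        · omega
        · omega
      set W : ℤ → ℝ := fun I => if P I then 1 else 0 with hW
      set Q : ℤ → ℝ := fun I => if P I ∧ P (I + 1) then 1 else 0 with hQ
      have hW01 : ∀ I, 0 ≤ W I ∧ W I ≤ 1 := by
        intro I; simp only [hW]; split_ifs <;> norm_num
      have hQ01 : ∀ I, 0 ≤ Q I ∧ Q I ≤ 1 := by
        intro I; simp only [hQ]; split_ifs <;> norm_num
      have hval : ∀ I : ℤ, del M * ic C (fun n => x M (n + (q M K * I + r))) -
          ic C (fun n => x M (n + (q M K * I + r))) *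
            ic C (fun n => x M (n + (q M K * I + r) + q M K)) =
          del M * W I - Q I := by
        intro I
        simp only [hW, hQ]
        have e2 : (fun n => x M (n + (q M K * I + r) + q M K)) =
            (fun n => x M (n + (q M K * (I + 1) + r))) := by
          funext n; congr 1; ring
        rw [e2]
        unfold ic
        by_cases h1 : P I <;> by_cases h2 : P (I + 1) <;> simp only [hP] at h1 h2 ⊢ <;>
          simp only [h1, h2] <;> simp
      simp only [hval]
      apply DP.of_block (p := L M) le_rfl (L_pos M)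
      · intro n
        have h1 := hW01 n
        have h2 := hQ01 n
        have h3 : del M * W n ≤ 1 := by nlinarith
        have h4 : 0 ≤ del M * W n := mul_nonneg hd0 h1.1
        rw [abs_le]
        constructor <;> linarith
      · rw [mul_zero]
        apply DP.of_le
        intro J
        exact block_le hM K P hPt J
    · simp only [hc, hin, if_false]
      apply DP.of_le
      intro n
      rcases ic01 (fun m => x M (m + (q M K * n + r))) with h1 | h1 <;>
        rcases ic01 (fun m => x M (m + (q M K * n + r) + q M K)) with h2 | h2 <;>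
          rw [h1, h2] <;> linarith

theorem cyl_ret {M : ℕ} (hM : 2 ≤ M) {μ : Measure (ℤ → Bool)} [IsProbabilityMeasure μ]
    (hinv : μ.map shift = μ) (hX : μ (sys (x M))ᶜ = 0) {C : Set (ℤ → Bool)}
    (hC : C ∈ measurableCylinders (fun _ : ℤ => Bool)) {R : ℕ} (hR : Loc C R) (K : ℕ) :
    del M * μ.real C - 2 * R / q M K ≤ μ.real (C ∩ shift^[q M K] ⁻¹' C) := by
  have hcl := clopen_of_cylinder hC
  have hm : MeasurableSet C := hcl.isOpen.measurableSet
  have hcont : Continuous fun y => del M * ic C y - ic C y * ic C (shift^[q M K] y) :=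
    (continuous_const.mul (continuous_ic hcl)).sub ((continuous_ic hcl).mul
      ((continuous_ic hcl).comp (continuous_shift_iter _)))
  have h1 := integral_le (x := x M) hcont (c := 2 * R / q M K) (by
    refine (ret_DP hM hR K).mono fun n => le_of_eq ?_
    rw [shift_iter]
    congr 3
    funext m
    congr 1
    ring) hinv hX
  have hint : ∀ D : Set (ℤ → Bool), IsClopen D → Integrable (ic D) μ := by
    intro D hD
    exact (BoundedContinuousFunction.mkOfCompact ⟨ic D, continuous_ic hD⟩).integrable μ
  have hcl2 : IsClopen (C ∩ shift^[q M K] ⁻¹' C) :=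
    hcl.inter (hcl.preimage (continuous_shift_iter _))
  have e : (fun y => del M * ic C y - ic C y * ic C (shift^[q M K] y)) =
      fun y => del M * ic C y - ic (C ∩ shift^[q M K] ⁻¹' C) y := by
    funext y
    rw [← ic_mul]
    rfl
  rw [e, integral_sub ((hint C hcl).const_mul _) (hint _ hcl2), integral_const_mul,
    integral_ic hm, integral_ic hcl2.isOpen.measurableSet] at h1
  linarith

theorem set_ret {M : ℕ} (hM : 2 ≤ M) {μ : Measure (ℤ → Bool)} [IsProbabilityMeasure μ]
    (hinv : μ.map shift = μ) (hX : μ (sys (x M))ᶜ = 0) {B : Set (ℤ → Bool)}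
    (hB : MeasurableSet B) {ε : ℝ} (hε : 0 < ε) :
    ∀ᶠ K in atTop, del M * μ.real B - ε ≤ μ.real (B ∩ shift^[q M K] ⁻¹' B) := by
  obtain ⟨C, hC, hBC⟩ := exists_cyl μ hB (ε := ε / 4) (by linarith)
  obtain ⟨R, hR⟩ := loc_of_cylinder hC
  have hCm : MeasurableSet C := (clopen_of_cylinder hC).isOpen.measurableSet
  have hmp : MeasurePreserving shift μ μ := ⟨continuous_shift.measurable, hinv⟩
  have hlim : Tendsto (fun K : ℕ => 2 * (R : ℝ) / q M K) atTop (𝓝 0) := by
    apply Tendsto.div_atTop tendsto_const_nhds
    apply tendsto_natCast_atTop_atTop.comp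
    exact tendsto_atTop_mono (fun K => (q_ge M K).le) tendsto_id
  have hev := hlim.eventually (gt_mem_nhds (show (0 : ℝ) < ε / 4 by linarith))
  filter_upwards [hev] with K hK
  have h1 := cyl_ret hM hinv hX hC hR K
  have h2 : μ.real B ≤ μ.real C + μ.real (B ∆ C) := by
    refine (measureReal_mono ?_).trans (measureReal_union_le _ _)
    intro y hy
    by_cases h : y ∈ C
    · exact Or.inl h
    · exact Or.inr (Or.inl ⟨hy, h⟩)
  have h3 : μ.real (C ∩ shift^[q M K] ⁻¹' C) ≤ μ.real (B ∩ shift^[q M K] ⁻¹' B) +
      (μ.real (B ∆ C) + μ.real (shift^[q M K] ⁻¹' (B ∆ C))) := by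
    refine (measureReal_mono ?_).trans ((measureReal_union_le (B ∩ shift^[q M K] ⁻¹' B)
      ((B ∆ C) ∪ shift^[q M K] ⁻¹' (B ∆ C))).trans ?_)
    · rintro y ⟨hy1, hy2⟩
      by_cases h : y ∈ B
      · by_cases h' : shift^[q M K] y ∈ B
        · exact Or.inl ⟨h, h'⟩
        · exact Or.inr (Or.inr (Or.inr ⟨hy2, h'⟩))
      · exact Or.inr (Or.inl (Or.inr ⟨hy1, h⟩))
    · have := measureReal_union_le (μ := μ) (B ∆ C) (shift^[q M K] ⁻¹' (B ∆ C))
      linarith
  have h4 : μ.real (shift^[q M K] ⁻¹' (B ∆ C)) = μ.real (B ∆ C) := by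
    unfold Measure.real
    rw [(hmp.iterate (q M K)).measure_preimage (hB.symmDiff hCm).nullMeasurableSet]
  have h5 : del M * μ.real B ≤ del M * μ.real C + μ.real (B ∆ C) := by
    have hd0 := del_nonneg hM
    have hd1 := del_le M
    have h6 : 0 ≤ μ.real (B ∆ C) := measureReal_nonneg
    calc del M * μ.real B ≤ del M * (μ.real C + μ.real (B ∆ C)) :=
          mul_le_mul_of_nonneg_left h2 hd0
      _ = del M * μ.real C + del M * μ.real (B ∆ C) := by ring
      _ ≤ del M * μ.real C + 1 * μ.real (B ∆ C) := by
          gcongr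
      _ = _ := by ring
  linarith

theorem diag_le {M : ℕ} (hM : 2 ≤ M) {μ : Measure (ℤ → Bool)} [IsProbabilityMeasure μ]
    (hinv : μ.map shift = μ) (hX : μ (sys (x M))ᶜ = 0) {n : ℕ} (hn : 0 < n) :
    μ.real {y : ℤ → Bool | y 0 = y n} ≤ 1 - 1 / (2 * L M) := by
  have hcl : IsClopen {y : ℤ → Bool | y 0 = y n} := by
    have hc : Continuous fun y : ℤ → Bool => (y 0, y n) :=
      (continuous_apply (0 : ℤ)).prodMk (continuous_apply (n : ℤ))
    exact (isClopen_discrete {p : Bool × Bool | p.1 = p.2}).preimage hc
  have h1 := integral_le (x := x M) (continuous_ic hcl) (c := 1 - 1 / (2 * L M)) (by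
    refine (x_DP hM (t := n) (by exact_mod_cast hn)).mono fun m => le_of_eq ?_
    unfold ic
    simp only [Set.mem_ofPred_eq, zero_add]
    rw [add_comm (n : ℤ) m]) hinv hX
  rwa [integral_ic hcl.isOpen.measurableSet] at h1

end KS60.TZ
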