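import Pool.Graph.R_pool_sql_team_seeded_b0a926ef.R656.ToepFin

/-!
# Toeplitz sequences in base `L = 2 M + 2`

The digit signs are `+^M, -, +, -^M`: balanced, with long runs, and every nonzero cyclic shift of
the digits meets both agreements and disagreements.
-/

set_option autoImplicit false

namespace KS60.TZ

open Finset Pool.Agent.R656.Toep

/-- the base -/
def L (M : ℕ) : ℕ := 2 * M + 2

theorem L_pos (M : ℕ) : 0 < L M := by unfold L; omega

theorem L_cast (M : ℕ) : ((L M : ℕ) : ℤ) = 2 * M + 2 := by unfold L; push_cast; ring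

theorem Lz_pos (M : ℕ) : (0 : ℤ) < (L M : ℤ) := by exact_mod_cast L_pos M

/-- the digit sign -/
noncomputable def ep (M : ℕ) (b : ℤ) : ℝ := if b < M ∨ b = M + 1 then 1 else -1

theorem ep_pos {M : ℕ} {b : ℤ} (h : b < M ∨ b = M + 1) : ep M b = 1 := by
  unfold ep; rw [if_pos h]

theorem ep_neg {M : ℕ} {b : ℤ} (h : ¬ (b < M ∨ b = M + 1)) : ep M b = -1 := by
  unfold ep; rw [if_neg h]

theorem ep_sgn (M : ℕ) (b : ℤ) : ep M b = 1 ∨ ep M b = -1 := by
  unfold ep; split_ifs <;> simp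

noncomputable def T (M : ℕ) (S : ℤ → ℝ) : ℤ → ℝ := fun I => ep M (I % L M) * S (I / L M)

noncomputable def th (M : ℕ) : ℕ → ℤ → ℝ
  | 0, _ => 1
  | w + 1, I => ep M (I % L M) * th M w (I / L M)

theorem T_iter (M w : ℕ) (S : ℤ → ℝ) (I : ℤ) :
    (T M)^[w] S I = th M w I * S (I / (L M : ℤ) ^ w) := by
  induction w generalizing I with
  | zero => simp [th]
  | succ w ih =>
    rw [Function.iterate_succ_apply']
    unfold T
    change _ * ((T M)^[w] S (I / L M)) = _
    rw [ih]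
    rw [Int.ediv_ediv_of_nonneg (Lz_pos M).le, th, pow_succ']
    ring

theorem th_add (M w : ℕ) (m b : ℤ) : th M w ((L M : ℤ) ^ w * m + b) = th M w b := by
  induction w generalizing m b with
  | zero => rfl
  | succ w ih =>
    unfold th
    have e1 : ((L M : ℤ) ^ (w + 1) * m + b) % L M = b % L M := by
      have : ((L M : ℤ) ^ (w + 1) * m + b) = b + L M * ((L M : ℤ) ^ w * m) := by ring
      rw [this, Int.add_mul_emod_self_left]
    have e2 : ((L M : ℤ) ^ (w + 1) * m + b) / L M = (L M : ℤ) ^ w * m + b / L M := by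
      have : ((L M : ℤ) ^ (w + 1) * m + b) = b + L M * ((L M : ℤ) ^ w * m) := by ring
      rw [this, Int.add_mul_ediv_left _ _ (Lz_pos M).ne']
      ring
    rw [e1, e2, ih]

theorem T_sgn {M : ℕ} {S : ℤ → ℝ} (h : Sgn S) : Sgn (T M S) := by
  intro n
  unfold T
  rcases ep_sgn M (n % L M) with h1 | h1 <;> rcases h (n / L M) with h2 | h2 <;>
    rw [h1, h2] <;> simp

theorem iter_sgn {M : ℕ} {S : ℤ → ℝ} (h : Sgn S) (w : ℕ) : Sgn ((T M)^[w] S) := by
  induction w with
  | zero => exact h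
  | succ w ih => rw [Function.iterate_succ_apply']; exact T_sgn ih

theorem th_sgn (M w : ℕ) (I : ℤ) : th M w I = 1 ∨ th M w I = -1 := by
  have := iter_sgn (M := M) (S := fun _ => 1) (fun _ => Or.inl rfl) w I
  rw [T_iter] at this
  simpa using this

theorem T_val (M : ℕ) (S : ℤ → ℝ) (J b : ℤ) (h0 : 0 ≤ b) (h3 : b < L M) :
    T M S (L M * J + b) = ep M b * S J := by
  unfold T
  have e1 : ((L M : ℤ) * J + b) % L M = b := by
    rw [add_comm, Int.add_mul_emod_self_left]
    exact Int.emod_eq_of_lt h0 h3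
  have e2 : ((L M : ℤ) * J + b) / L M = J := by
    rw [add_comm, Int.add_mul_ediv_left _ _ (Lz_pos M).ne', Int.ediv_eq_zero_of_lt h0 h3]
    ring
  rw [e1, e2]

/-- agreements and disagreements for every shift -/
theorem shifts (M : ℕ) (hM : 2 ≤ M) (r : ℤ) (h0 : 0 < r) (h1 : r < L M) :
    (∃ b c : ℤ, 0 ≤ b ∧ 0 ≤ c ∧ b ≠ c ∧ b + r < L M ∧ c + r < L M ∧
      ep M b * ep M (b + r) = 1 ∧ ep M c * ep M (c + r) = -1) ∨
    (∃ b c : ℤ, 0 ≤ b ∧ 0 ≤ c ∧ b ≠ c ∧ b < L M ∧ c < L M ∧ L M ≤ b + r ∧ L M ≤ c + r ∧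
      ep M b * ep M (b + r - L M) = 1 ∧ ep M c * ep M (c + r - L M) = -1) := by
  rw [L_cast] at *
  have p0 : ep M 0 = 1 := ep_pos (by omega)
  have p1 : ep M 1 = 1 := ep_pos (by omega)
  have pM : ep M (M : ℤ) = -1 := ep_neg (by omega)
  have pM1 : ep M ((M : ℤ) + 1) = 1 := ep_pos (by omega)
  have pM2 : ep M ((M : ℤ) + 2) = -1 := ep_neg (by omega)
  rcases lt_trichotomy r (M : ℤ) with h | h | h
  · left
    refine ⟨0, M - r, le_rfl, by omega, by omega, by omega, by omega, ?_, ?_⟩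
    · rw [p0, ep_pos (by omega)]; norm_num
    · rw [ep_pos (by omega), show (M : ℤ) - r + r = M by ring, pM]; norm_num
  · left
    refine ⟨1, 0, by omega, le_rfl, by omega, by omega, by omega, ?_, ?_⟩
    · rw [p1, h, show (1 : ℤ) + M = M + 1 by ring, pM1]; norm_num
    · rw [p0, h, zero_add, pM]; norm_num
  · rcases eq_or_lt_of_le (show (M : ℤ) + 1 ≤ r by omega) with h' | h'
    · left
      refine ⟨0, 1, le_rfl, by omega, by omega, by omega, by omega, ?_, ?_⟩
      · rw [p0, ← h', zero_add, pM1]; norm_num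
      · rw [p1, ← h', show (1 : ℤ) + (M + 1) = M + 2 by ring, pM2]; norm_num
    · right
      obtain ⟨s, hs⟩ : ∃ s : ℤ, s = 2 * M + 2 - r := ⟨_, rfl⟩
      rcases eq_or_lt_of_le (show s ≤ M by omega) with h2 | h2
      · refine ⟨M + 1, M, by omega, by omega, by omega, by omega, by omega, by omega, by omega,
          ?_, ?_⟩
        · rw [pM1, show (M : ℤ) + 1 + r - (2 * M + 2) = 1 by omega, p1]; norm_num
        · rw [pM, show (M : ℤ) + r - (2 * M + 2) = 0 by omega, p0]; norm_num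
      · refine ⟨s, M, by omega, by omega, by omega, by omega, by omega, by omega, by omega,
          ?_, ?_⟩
        · rw [ep_pos (by omega), show s + r - (2 * M + 2) = 0 by omega, p0]; norm_num
        · rw [pM, ep_pos (by omega)]; norm_num

theorem sum_le_of_pair {n : ℕ} {f : ℕ → ℝ} (hf : ∀ i ∈ range n, f i ≤ 1) {b c : ℕ} (hb : b < n)
    (hc : c < n) (hbc : b ≠ c) (h : f b + f c ≤ 0) : ∑ i ∈ range n, f i ≤ n - 2 := by
  have h1 : ∑ i ∈ ({b, c} : Finset ℕ), (1 - f i) ≤ ∑ i ∈ range n, (1 - f i) := by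
    apply sum_le_sum_of_subset_of_nonneg
    · intro i hi
      rw [mem_insert, mem_singleton] at hi
      rcases hi with rfl | rfl <;> simpa
    · intro i hi _
      linarith [hf i hi]
  rw [sum_pair hbc, sum_sub_distrib] at h1
  simp only [sum_const, card_range, nsmul_eq_mul, mul_one] at h1
  linarith

theorem cor_T0 {M : ℕ} (hM : 2 ≤ M) {S : ℤ → ℝ} (h : Sgn S) {t : ℤ} (ht : t % L M ≠ 0) :
    Cor (T M S) t (1 - 2 / L M) := by
  have hLr : (0 : ℝ) < L M := by exact_mod_cast L_pos M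
  have hL2 : (2 : ℝ) ≤ L M := by
    have : 2 ≤ L M := by unfold L; omega
    exact_mod_cast this
  unfold Cor
  apply DP.of_block (p := L M) _ (L_pos M) (fun n => (T_sgn h).mul_le _ _)
  · have e : ((L M : ℕ) : ℝ) * (1 - 2 / L M) = L M - 2 := by field_simp
    rw [e]
    apply DP.of_le
    intro J
    have hLz := Lz_pos M
    have hr0 := Int.emod_nonneg t hLz.ne'
    have hr1 := Int.emod_lt_of_pos t hLz
    have hdm := Int.emod_add_mul_ediv t (L M)
    set r := t % (L M : ℤ) with hr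
    set t' := t / (L M : ℤ) with ht'
    have hf : ∀ i ∈ range (L M), T M S (L M * J + i) * T M S (L M * J + i + t) ≤ 1 := by
      intro i _
      exact (abs_le.1 ((T_sgn h).mul_le _ _)).2
    rcases shifts M hM r (lt_of_le_of_ne hr0 (Ne.symm ht)) hr1 with
      ⟨b, c, hb0, hc0, hbc, hb, hc, e1, e2⟩ | ⟨b, c, hb0, hc0, hbc, hb', hc', hb, hc, e1, e2⟩
    · obtain ⟨b, rfl⟩ := Int.eq_ofNat_of_zero_le hb0
      obtain ⟨c, rfl⟩ := Int.eq_ofNat_of_zero_le hc0
      apply sum_le_of_pair hf (b := b) (c := c) (by omega) (by omega) (by omega)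
      have v : ∀ b : ℕ, (b : ℤ) + r < L M → T M S (L M * J + b) * T M S (L M * J + b + t) =
          ep M b * ep M (b + r) * (S J * S (J + t')) := by
        intro b hb
        rw [T_val M S J b (by omega) (by omega)]
        have e : (L M : ℤ) * J + b + t = L M * (J + t') + (b + r) := by linarith
        rw [e, T_val M S _ _ (by omega) hb]
        ring
      rw [v b hb, v c hc, e1, e2]
      apply le_of_eq
      ring
    · obtain ⟨b, rfl⟩ := Int.eq_ofNat_of_zero_le hb0
      obtain ⟨c, rfl⟩ := Int.eq_ofNat_of_zero_le hc0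
      apply sum_le_of_pair hf (b := b) (c := c) (by omega) (by omega) (by omega)
      have v : ∀ b : ℕ, (b : ℤ) < L M → (L M : ℤ) ≤ b + r →
          T M S (L M * J + b) * T M S (L M * J + b + t) =
          ep M b * ep M (b + r - L M) * (S J * S (J + t' + 1)) := by
        intro b hb hb2
        rw [T_val M S J b (by omega) (by omega)]
        have e : (L M : ℤ) * J + b + t = L M * (J + t' + 1) + (b + r - L M) := by linarith
        rw [e, T_val M S _ _ (by omega) (by omega)]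
        ring
      rw [v b hb' hb, v c hc' hc, e1, e2]
      apply le_of_eq
      ring
  · rw [sub_nonneg, div_le_one hLr]
    exact hL2

theorem cor_T1 {M : ℕ} {S : ℤ → ℝ} (h : Sgn S) {t : ℤ} {c : ℝ} (hc : 0 ≤ c) (ht : Cor S t c) :
    Cor (T M S) (L M * t) c := by
  unfold Cor
  apply DP.of_block (p := L M) hc (L_pos M) (fun n => (T_sgn h).mul_le _ _)
  have := DP.smul (s := L M) ht (by positivity)
  refine DP.mono this ?_
  intro J
  apply le_of_eq
  have : ∀ b ∈ range (L M), T M S (L M * J + b) * T M S (L M * J + b + L M * t) =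
      S J * S (J + t) := by
    intro b hb
    rw [mem_range] at hb
    rw [T_val M S J b (by omega) (by exact_mod_cast hb)]
    have e : (L M : ℤ) * J + b + L M * t = L M * (J + t) + b := by ring
    rw [e, T_val M S _ _ (by omega) (by exact_mod_cast hb)]
    rcases ep_sgn M b with h1 | h1 <;> rw [h1] <;> ring
  rw [sum_congr rfl this]
  simp

theorem cor_iter {M : ℕ} (hM : 2 ≤ M) {S : ℤ → ℝ} (h : Sgn S) {c : ℝ} (hc0 : 0 ≤ c)
    (hc : 1 - 2 / L M ≤ c) (w : ℕ) {t : ℤ} (ht : 0 < t)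
    (hS : ∀ t', 0 < t' → (L M : ℤ) ^ w * t' = t → Cor S t' c) : Cor ((T M)^[w] S) t c := by
  induction w generalizing t with
  | zero => exact hS t ht (by simp)
  | succ w ih =>
    rw [Function.iterate_succ_apply']
    by_cases h3 : t % L M = 0
    · obtain ⟨s, rfl⟩ : ∃ s, t = L M * s := Int.dvd_of_emod_eq_zero h3
      apply cor_T1 (iter_sgn h w) hc0
      apply ih (pos_of_mul_pos_right ht (Lz_pos M).le)
      intro t' ht' hs
      apply hS t' ht'
      rw [← hs]; ring
    · exact DP.weaken (cor_T0 hM (iter_sgn h w) h3) hc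

theorem three_le (M K : ℕ) : (3 : ℤ) ≤ (L M : ℤ) ^ (K + 3) := by
  have h2 : (2 : ℤ) ≤ L M := by rw [L_cast]; omega
  calc (3 : ℤ) ≤ 2 ^ 3 := by norm_num
    _ ≤ (2 : ℤ) ^ (K + 3) := pow_le_pow_right₀ (by norm_num) (by omega)
    _ ≤ (L M : ℤ) ^ (K + 3) := pow_le_pow_left₀ (by norm_num) h2 _

noncomputable def U (M K : ℕ) (I : ℤ) : ℝ := by
  classical
  exact if h : ((L M : ℤ) ^ (K + 3)) ∣ I ∨ ((L M : ℤ) ^ (K + 3)) ∣ I + 1 then 1
  else th M (K + 3) I * U M (K + 1) (I / (L M : ℤ) ^ (K + 3))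
termination_by I.natAbs
decreasing_by
  push Not at h
  exact div_natAbs_lt (three_le M K) h.1 h.2

theorem U_exc {M K : ℕ} {I : ℤ} (h : ((L M : ℤ) ^ (K + 3)) ∣ I ∨ ((L M : ℤ) ^ (K + 3)) ∣ I + 1) :
    U M K I = 1 := by
  rw [U]
  simp [h]

theorem U_reg {M K : ℕ} {I : ℤ}
    (h : ¬ (((L M : ℤ) ^ (K + 3)) ∣ I ∨ ((L M : ℤ) ^ (K + 3)) ∣ I + 1)) :
    U M K I = th M (K + 3) I * U M (K + 1) (I / (L M : ℤ) ^ (K + 3)) := by
  conv_lhs => rw [U]
  simp only [h, dite_false]

theorem U_reg' {M K : ℕ} {I : ℤ}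
    (h : ¬ (((L M : ℤ) ^ (K + 3)) ∣ I ∨ ((L M : ℤ) ^ (K + 3)) ∣ I + 1)) :
    U M K I = (T M)^[K + 3] (U M (K + 1)) I := by
  rw [U_reg h, T_iter]

theorem U_sgn (M K : ℕ) : Sgn (U M K) := by
  have key : ∀ n : ℕ, ∀ K : ℕ, ∀ I : ℤ, I.natAbs ≤ n → U M K I = 1 ∨ U M K I = -1 := by
    intro n
    induction n with
    | zero =>
      intro K I hI
      have : I = 0 := by omega
      subst this
      left
      exact U_exc (Or.inl (dvd_zero _))
    | succ n ih =>
      intro K I hI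
      by_cases h : ((L M : ℤ) ^ (K + 3)) ∣ I ∨ ((L M : ℤ) ^ (K + 3)) ∣ I + 1
      · left; exact U_exc h
      · rw [U_reg h]
        push Not at h
        have := div_natAbs_lt (three_le M K) h.1 h.2
        rcases th_sgn M (K + 3) I with h1 | h1 <;>
          rcases ih (K + 1) (I / (L M : ℤ) ^ (K + 3)) (by omega) with h2 | h2 <;>
            rw [h1, h2] <;> simp
  exact fun n => key _ K n le_rfl

/-- the values in the interior of a block -/
theorem U_int (M K : ℕ) (J b : ℤ) (h1 : 1 ≤ b) (h2 : b + 2 ≤ L M) :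
    U M K (L M * J + b) = ep M b * (T M)^[K + 2] (U M (K + 1)) J := by
  have hd : (L M : ℤ) ∣ (L M : ℤ) ^ (K + 3) := dvd_pow_self _ (by omega)
  have hexc : ¬ (((L M : ℤ) ^ (K + 3)) ∣ L M * J + b ∨ ((L M : ℤ) ^ (K + 3)) ∣ L M * J + b + 1) := by
    intro h
    rcases h with h | h
    · have h3 := hd.trans h
      have h4 : (L M : ℤ) ∣ b := (Int.dvd_add_right (dvd_mul_right _ _)).1 h3
      have := Int.le_of_dvd (by omega) h4
      omega
    · have h3 := hd.trans h
      rw [add_assoc] at h3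
      have h4 : (L M : ℤ) ∣ b + 1 := (Int.dvd_add_right (dvd_mul_right _ _)).1 h3
      have := Int.le_of_dvd (by omega) h4
      omega
  rw [U_reg' hexc, Function.iterate_succ_apply', T_val M _ J b (by omega) (by omega)]

/-- block lengths -/
def q (M : ℕ) : ℕ → ℕ
  | 0 => 1
  | K + 1 => q M K * L M ^ (K + 3)

theorem q_pos (M K : ℕ) : 0 < q M K := by
  induction K with
  | zero => simp [q]
  | succ K ih =>
    unfold q
    have := L_pos M
    positivity

theorem q_ge (M K : ℕ) : K < q M K := by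
  induction K with
  | zero => simp [q]
  | succ K ih =>
    unfold q
    have h : (3 : ℤ) ≤ ((L M ^ (K + 3) : ℕ) : ℤ) := by
      push_cast
      exact three_le M K
    have h3 : 3 ≤ L M ^ (K + 3) := by exact_mod_cast h
    nlinarith

theorem U_step {M K : ℕ} {I I' b : ℤ} (hb0 : 0 ≤ b) (hb : b < (L M : ℤ) ^ (K + 3))
    (h : U M (K + 1) I = U M (K + 1) I') :
    U M K ((L M : ℤ) ^ (K + 3) * I + b) = U M K ((L M : ℤ) ^ (K + 3) * I' + b) := by
  have hp := three_le M K
  have d1 : ∀ J : ℤ, ((L M : ℤ) ^ (K + 3)) ∣ (L M : ℤ) ^ (K + 3) * J + b ↔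
      ((L M : ℤ) ^ (K + 3)) ∣ b :=
    fun J => (Int.dvd_add_right (dvd_mul_right _ _))
  have d2 : ∀ J : ℤ, ((L M : ℤ) ^ (K + 3)) ∣ (L M : ℤ) ^ (K + 3) * J + b + 1 ↔
      ((L M : ℤ) ^ (K + 3)) ∣ b + 1 := by
    intro J
    rw [add_assoc]
    exact (Int.dvd_add_right (dvd_mul_right _ _))
  by_cases hex : ((L M : ℤ) ^ (K + 3)) ∣ b ∨ ((L M : ℤ) ^ (K + 3)) ∣ b + 1
  · rw [U_exc (by rw [d1, d2]; exact hex), U_exc (by rw [d1, d2]; exact hex)]
  · have r1 := U_reg (M := M) (K := K) (I := (L M : ℤ) ^ (K + 3) * I + b)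
      (by rw [d1, d2]; exact hex)
    have r2 := U_reg (M := M) (K := K) (I := (L M : ℤ) ^ (K + 3) * I' + b)
      (by rw [d1, d2]; exact hex)
    have e : ∀ J : ℤ, ((L M : ℤ) ^ (K + 3) * J + b) / (L M : ℤ) ^ (K + 3) = J := by
      intro J
      rw [add_comm, Int.add_mul_ediv_left _ _ (by omega), Int.ediv_eq_zero_of_lt hb0 hb]
      ring
    rw [e, th_add] at r1 r2
    rw [r1, r2, h]

theorem U_block (M K : ℕ) {I I' r : ℤ} (hr0 : 0 ≤ r) (hr : r < q M K)
    (h : U M K I = U M K I') : U M 0 (q M K * I + r) = U M 0 (q M K * I' + r) := by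
  induction K generalizing I I' r with
  | zero =>
    have hq : (q M 0 : ℤ) = 1 := by simp [q]
    rw [hq] at hr ⊢
    have : r = 0 := by omega
    subst this
    simpa using h
  | succ K ih =>
    have hq0 : (0 : ℤ) < q M K := by exact_mod_cast q_pos M K
    have hq : (q M (K + 1) : ℤ) = q M K * (L M : ℤ) ^ (K + 3) := by simp [q]
    rw [hq] at hr ⊢
    have e := Int.emod_add_mul_ediv r (q M K)
    have b1 := Int.emod_nonneg r hq0.ne'
    have b2 := Int.emod_lt_of_pos r hq0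
    have e1 : ∀ J : ℤ, (q M K : ℤ) * (L M : ℤ) ^ (K + 3) * J + r =
        q M K * ((L M : ℤ) ^ (K + 3) * J + r / q M K) + r % q M K := by
      intro J
      conv_lhs => rw [← e]
      ring
    rw [e1, e1]
    apply ih b1 b2
    apply U_step
    · exact Int.ediv_nonneg hr0 hq0.le
    · apply Int.ediv_lt_of_lt_mul hq0
      linarith
    · exact h

theorem U_toeplitz (M K : ℕ) (I : ℤ) : ∃ P : ℤ, 1 ≤ P ∧ ∀ k : ℤ, U M K (I + k * P) = U M K I := by
  have key : ∀ n : ℕ, ∀ K : ℕ, ∀ I : ℤ, I.natAbs ≤ n →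
      ∃ P : ℤ, 1 ≤ P ∧ ∀ k : ℤ, U M K (I + k * P) = U M K I := by
    intro n
    have hexc : ∀ K : ℕ, ∀ I : ℤ,
        (((L M : ℤ) ^ (K + 3)) ∣ I ∨ ((L M : ℤ) ^ (K + 3)) ∣ I + 1) →
        ∃ P : ℤ, 1 ≤ P ∧ ∀ k : ℤ, U M K (I + k * P) = U M K I := by
      intro K I h
      refine ⟨(L M : ℤ) ^ (K + 3), by linarith [three_le M K], fun k => ?_⟩
      rw [U_exc h, U_exc]
      rcases h with h | h
      · left
        exact dvd_add h (dvd_mul_left _ _)
      · right
        have : I + k * (L M : ℤ) ^ (K + 3) + 1 = (I + 1) + k * (L M : ℤ) ^ (K + 3) := by ring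
        rw [this]
        exact dvd_add h (dvd_mul_left _ _)
    induction n with
    | zero =>
      intro K I hI
      have : I = 0 := by omega
      subst this
      exact hexc K 0 (Or.inl (dvd_zero _))
    | succ n ih =>
      intro K I hI
      by_cases h : ((L M : ℤ) ^ (K + 3)) ∣ I ∨ ((L M : ℤ) ^ (K + 3)) ∣ I + 1
      · exact hexc K I h
      · have h' := h
        push Not at h'
        have := div_natAbs_lt (three_le M K) h'.1 h'.2
        obtain ⟨P, hP, hk⟩ := ih (K + 1) (I / (L M : ℤ) ^ (K + 3)) (by omega)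
        have hp := three_le M K
        refine ⟨(L M : ℤ) ^ (K + 3) * P, by nlinarith, fun k => ?_⟩
        have hex : ¬ (((L M : ℤ) ^ (K + 3)) ∣ I + k * ((L M : ℤ) ^ (K + 3) * P) ∨
            ((L M : ℤ) ^ (K + 3)) ∣ I + k * ((L M : ℤ) ^ (K + 3) * P) + 1) := by
          intro hcon
          apply h
          have hd : ((L M : ℤ) ^ (K + 3)) ∣ k * ((L M : ℤ) ^ (K + 3) * P) :=
            (Dvd.intro _ rfl : ((L M : ℤ) ^ (K + 3)) ∣ (L M : ℤ) ^ (K + 3) * P).mul_left k
          rcases hcon with hc | hc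
          · left; exact (Int.dvd_add_left hd).1 hc
          · right
            rw [add_right_comm] at hc
            exact (Int.dvd_add_left hd).1 hc
        rw [U_reg hex, U_reg h]
        have e1 : I + k * ((L M : ℤ) ^ (K + 3) * P) = (L M : ℤ) ^ (K + 3) * (k * P) + I := by ring
        have e2 : (I + k * ((L M : ℤ) ^ (K + 3) * P)) / (L M : ℤ) ^ (K + 3) =
            I / (L M : ℤ) ^ (K + 3) + k * P := by
          have : I + k * ((L M : ℤ) ^ (K + 3) * P) = I + (L M : ℤ) ^ (K + 3) * (k * P) := by ring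
          rw [this, Int.add_mul_ediv_left _ _ (by omega)]
        rw [e2, e1, th_add, hk]
  exact key _ K I le_rfl

theorem U_cor {M : ℕ} (hM : 2 ≤ M) (K : ℕ) {t : ℤ} (ht : 0 < t) :
    Cor (U M K) t (1 - 2 / L M + 12 / (L M : ℝ) ^ (K + 3)) := by
  have hLr : (0 : ℝ) < L M := by exact_mod_cast L_pos M
  have hL6 : (6 : ℝ) ≤ L M := by
    have : 6 ≤ L M := by unfold L; omega
    exact_mod_cast this
  have key : ∀ n : ℕ, ∀ K : ℕ, ∀ t : ℤ, 0 < t → t ≤ n →
      Cor (U M K) t (1 - 2 / L M + 12 / (L M : ℝ) ^ (K + 3)) := by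
    intro n
    induction n with
    | zero => intro K t h1 h2; exfalso; push_cast at h2; omega
    | succ n ih =>
      intro K t h1 h2
      have h3 : Cor ((T M)^[K + 3] (U M (K + 1))) t
          (1 - 2 / L M + 12 / (L M : ℝ) ^ (K + 1 + 3)) := by
        have hp : (0 : ℝ) ≤ 12 / (L M : ℝ) ^ (K + 1 + 3) := by positivity
        apply cor_iter hM (U_sgn _ _)
        · have : (2 : ℝ) / L M ≤ 1 := by rw [div_le_one hLr]; linarith
          linarith
        · linarith
        · exact h1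
        · intro t' ht' he
          apply ih (K + 1) t' ht'
          have := three_le M K
          push_cast at h2
          nlinarith
      have h4 := cor_exc (p := L M ^ (K + 3)) (U_sgn M K) (iter_sgn (U_sgn M (K + 1)) (K + 3))
        (pow_pos (L_pos M) _) (fun n hn => U_reg' (by push_cast at hn; exact hn)) h3
      refine DP.weaken h4 ?_
      push_cast
      have e : (L M : ℝ) ^ (K + 1 + 3) = L M * (L M : ℝ) ^ (K + 3) := by ring
      rw [e]
      have hpw : (0 : ℝ) < (L M : ℝ) ^ (K + 3) := by positivity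
      have e2 : 12 / ((L M : ℝ) * (L M : ℝ) ^ (K + 3)) ≤ 4 / (L M : ℝ) ^ (K + 3) := by
        rw [div_le_div_iff₀ (by positivity) hpw]
        nlinarith
      have e3 : 4 / (L M : ℝ) ^ (K + 3) + 8 / (L M : ℝ) ^ (K + 3) = 12 / (L M : ℝ) ^ (K + 3) := by
        rw [← add_div]; norm_num
      linarith
  exact key t.toNat K t ht (by omega)

theorem U_cor0 {M : ℕ} (hM : 2 ≤ M) {t : ℤ} (ht : 0 < t) : Cor (U M 0) t (1 - 1 / L M) := by
  have hLr : (0 : ℝ) < L M := by exact_mod_cast L_pos M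
  have hL6 : (6 : ℝ) ≤ L M := by
    have : 6 ≤ L M := by unfold L; omega
    exact_mod_cast this
  have := U_cor hM 0 ht
  refine DP.weaken this ?_
  have h1 : 12 / (L M : ℝ) ^ (0 + 3) ≤ 1 / L M := by
    rw [div_le_div_iff₀ (by positivity) hLr]
    have e : (L M : ℝ) ^ (0 + 3) = L M * L M * L M := by ring
    rw [e]
    nlinarith [mul_pos hLr hLr]
  have h2 : (2 : ℝ) / L M = 1 / L M + 1 / L M := by ring
  linarith

/-- the Toeplitz sequence -/
noncomputable def x (M : ℕ) (j : ℤ) : Bool := by classical exact decide (U M 0 j = 1)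

theorem x_eq_iff (M : ℕ) (i j : ℤ) : x M i = x M j ↔ U M 0 i = U M 0 j := by
  classical
  unfold x
  rcases U_sgn M 0 i with h1 | h1 <;> rcases U_sgn M 0 j with h2 | h2 <;> rw [h1, h2] <;> norm_num

theorem x_block (M K : ℕ) {I I' r : ℤ} (hr0 : 0 ≤ r) (hr : r < q M K)
    (h : U M K I = U M K I') : x M (q M K * I + r) = x M (q M K * I' + r) :=
  (x_eq_iff _ _ _).2 (U_block M K hr0 hr h)

theorem x_toeplitz (M : ℕ) (n : ℤ) : ∃ p : ℤ, 1 ≤ p ∧ ∀ k : ℤ, x M (n + k * p) = x M n := by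
  obtain ⟨P, hP, h⟩ := U_toeplitz M 0 n
  exact ⟨P, hP, fun k => (x_eq_iff _ _ _).2 (h k)⟩

theorem x_DP {M : ℕ} (hM : 2 ≤ M) {t : ℤ} (ht : 0 < t) :
    DP (fun n => if x M n = x M (n + t) then (1 : ℝ) else 0) (1 - 1 / (2 * L M)) := by
  have hLr : (0 : ℝ) < L M := by exact_mod_cast L_pos M
  have h1 := (DP.const (1 / 2)).add ((U_cor0 hM ht).smul (s := 1 / 2) (by norm_num))
  refine (h1.mono ?_).weaken ?_
  · intro n
    simp only [x_eq_iff]
    rcases U_sgn M 0 n with h1 | h1 <;> rcases U_sgn M 0 (n + t) with h2 | h2 <;>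
      rw [h1, h2] <;> norm_num
  · apply le_of_eq
    field_simp
    ring

theorem x_aperiodic {M : ℕ} (hM : 2 ≤ M) : ¬ ∃ p : ℤ, 1 ≤ p ∧ ∀ n, x M (n + p) = x M n := by
  rintro ⟨p, hp, h⟩
  have hLr : (0 : ℝ) < L M := by exact_mod_cast L_pos M
  obtain ⟨C, hC⟩ := x_DP hM (t := p) (by omega)
  obtain ⟨N, hN⟩ := exists_nat_gt (2 * L M * C)
  have h1 := hC 0 N
  simp only [zero_add, h, if_true, sum_const, card_range, nsmul_eq_mul, mul_one] at h1
  have h2 : (N : ℝ) / (2 * L M) ≤ C := by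
    have e : (1 - 1 / (2 * (L M : ℝ))) * N = N - N / (2 * L M) := by ring
    rw [e] at h1
    linarith
  rw [div_le_iff₀ (by positivity)] at h2
  linarith

end KS60.TZ
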